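import Pool.Agent.Helper98.SPR.Stmts

/-!
# SPR: row MAG (the magic lemma with two measures)
-/

set_option autoImplicit false

namespace SPR

noncomputable section

open Classical

/-- the two points of a disc -/
def mgpos {N : ℕ} (x : Fin N → ℂ) (ρ : Fin N → ℝ) (z : Fin N × Bool) : ℂ :=
  x z.1 + (if z.2 then ((ρ z.1 / 2 : ℝ) : ℂ) else -((ρ z.1 / 2 : ℝ) : ℂ))

theorem mgpos_dist {N : ℕ} (x : Fin N → ℂ) (ρ : Fin N → ℝ) (hρ : ∀ d, 0 < ρ d) (z : Fin N × Bool) :
    dist (mgpos x ρ z) (x z.1) = ρ z.1 / 2 := by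
  unfold mgpos
  rw [dist_eq_norm, add_sub_cancel_left]
  have h := hρ z.1
  split_ifs
  · rw [Complex.norm_real, Real.norm_eq_abs, abs_of_pos (by positivity)]
  · rw [norm_neg, Complex.norm_real, Real.norm_eq_abs, abs_of_pos (by positivity)]

/-- one of the two points is far from `p` -/
theorem mgpos_far {N : ℕ} (x : Fin N → ℂ) (ρ : Fin N → ℝ) (hρ : ∀ d, 0 < ρ d) (d : Fin N) (p : ℂ) :
    ∃ b : Bool, fd x ρ p d ≤ 3 * dist (mgpos x ρ (d, b)) p := by
  by_contra hcon
  push Not at hcon
  have h1 := hcon true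
  have h2 := hcon false
  have h := hρ d
  have e1 : dist (x d) p ≤ (dist (mgpos x ρ (d, true)) p + dist (mgpos x ρ (d, false)) p) / 2 := by
    rw [dist_eq_norm, dist_eq_norm, dist_eq_norm]
    have e : x d - p = (1 / 2 : ℂ) * ((mgpos x ρ (d, true) - p) + (mgpos x ρ (d, false) - p)) := by
      unfold mgpos
      simp only [if_true, Bool.false_eq_true, if_false]
      ring
    rw [e, norm_mul]
    have h3 := norm_add_le (mgpos x ρ (d, true) - p) (mgpos x ρ (d, false) - p)
    have h4 : ‖(1 / 2 : ℂ)‖ = 1 / 2 := by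
      simp
    rw [h4]
    linarith
  have e2 : ρ d ≤ dist (mgpos x ρ (d, true)) p + dist (mgpos x ρ (d, false)) p := by
    have h5 : dist (mgpos x ρ (d, true)) (mgpos x ρ (d, false)) = ρ d := by
      rw [dist_eq_norm]
      have e : mgpos x ρ (d, true) - mgpos x ρ (d, false) = ((ρ d : ℝ) : ℂ) := by
        unfold mgpos
        simp only [if_true, Bool.false_eq_true, if_false]
        push_cast
        ring
      rw [e, Complex.norm_real, Real.norm_eq_abs, abs_of_pos h]
    have h6 := dist_triangle_right (mgpos x ρ (d, true)) (mgpos x ρ (d, false)) p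
    linarith
  unfold fd at h1 h2
  linarith

theorem mg_iter (hG1 : ∀ (a b : ℕ) (i : ℤ) (z z' : ℂ), gr a b i z = gr a b i z' →
    gr a b (i + 1) z = gr a b (i + 1) z') (a b : ℕ) (i : ℤ) (n : ℕ) (z z' : ℂ)
    (h : gr a b i z = gr a b i z') : gr a b (i + n) z = gr a b (i + n) z' := by
  induction n with
  | zero =>
    rw [Nat.cast_zero, add_zero]
    exact h
  | succ n ih =>
    have := hG1 a b (i + n) z z' ih
    rw [Nat.cast_succ, ← add_assoc]
    exact this

theorem st_MAG (hAREA : ST_AREA) (hPOT : ST_POT) (hGRID : ST_GRID) : ST_MAG := by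
  obtain ⟨hG1, hG2, hG3⟩ := hGRID
  refine ⟨4 * 73 * 729 * 4, by norm_num, ?_⟩
  intro N x ρ S μ A s hρ hdis hμ hA hs
  have hA0 : 0 < A := lt_of_lt_of_le one_pos hA
  set m0 : ℕ := ⌈72 * A ^ 2⌉₊ with hm0
  have hm0le : (72 * A ^ 2 : ℝ) ≤ m0 := Nat.le_ceil _
  have hA2 : 1 ≤ A ^ 2 := one_le_pow₀ hA
  have hm0pos : 0 < m0 := by
    have : (0 : ℝ) < m0 := by linarith
    exact_mod_cast this
  have hm0up : (m0 : ℝ) ≤ 73 * A ^ 2 := by
    have := Nat.ceil_lt_add_one (show 0 ≤ 72 * A ^ 2 by positivity)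
    have h1 : (m0 : ℝ) < 72 * A ^ 2 + 1 := this
    linarith
  have h3m0 : 72 * A ^ 2 ≤ (3 : ℝ) ^ m0 := by
    have h1 : m0 < 3 ^ m0 := Nat.lt_pow_self (by norm_num)
    have h2 : (m0 : ℝ) ≤ (3 : ℝ) ^ m0 := by exact_mod_cast h1.le
    linarith
  -- scales
  have hsc : ∀ w : Fin N, ∃ i : ℤ, 4 * (A * ρ w) < (3 : ℝ) ^ i ∧ (3 : ℝ) ^ i ≤ 12 * (A * ρ w) := by
    intro w
    have hy : 0 < 4 * (A * ρ w) := by
      have := hρ w
      positivity
    obtain ⟨i, hi1, hi2⟩ := exists_mem_Ico_zpow hy (show (1 : ℝ) < 3 by norm_num)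
    refine ⟨i + 1, hi2, ?_⟩
    rw [zpow_add_one₀ (by norm_num)]
    linarith
  choose lev hlev1 hlev2 using hsc
  have hsh : ∀ w : Fin N, ∃ a ≤ 1, ∃ b ≤ 1, ∀ z : ℂ, dist z (x w) ≤ A * ρ w →
      gr a b (lev w) z = gr a b (lev w) (x w) := fun w =>
    hG2 (lev w) (x w) (A * ρ w) (by have := hρ w; positivity) (hlev1 w)
  choose sa hsa sb hsb hsab using hsh
  obtain ⟨i0', hi0'⟩ := (Set.finite_range lev).bddBelow
  have hi0 : ∀ w, i0' ≤ lev w := fun w => hi0' ⟨w, rfl⟩
  set i0 : ℤ := i0' - m0 with hi0d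
  set nn : Fin N → ℕ := fun w => (lev w - i0').toNat with hnn
  have hnnc : ∀ w, (nn w : ℤ) = lev w - i0' := fun w => by
    rw [hnn]
    exact Int.toNat_of_nonneg (by linarith [hi0 w])
  set rr : Fin N → ℕ := fun w => nn w % m0 with hrr
  set jj : Fin N → ℕ := fun w => nn w / m0 with hjj
  have hdec : ∀ w, lev w = i0 + rr w + m0 * (jj w + 1) := fun w => by
    have h1 : ((nn w % m0 + m0 * (nn w / m0) : ℕ) : ℤ) = (nn w : ℤ) := by
      rw [Nat.mod_add_div]
    push_cast at h1
    have h2 := hnnc w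
    simp only [hrr, hjj]
    push_cast
    rw [hi0d]
    linarith
  set Bad := S.filter (fun w => ∀ p : ℂ,
      s < ∑ d with (fd x ρ (x w) d ≤ A * ρ w ∧ ρ w < A * fd x ρ p d), μ d) with hBad
  -- one class
  have hclass : ∀ c : ℕ × ℕ × ℕ, s * ((Bad.filter (fun w => (sa w, sb w, rr w) = c)).card : ℝ) ≤
      729 * A ^ 2 * (4 * ∑ d, μ d) := by
    rintro ⟨a, b, r⟩
    set Bc := Bad.filter (fun w => (sa w, sb w, rr w) = (a, b, r)) with hBc
    have hBcm : ∀ w ∈ Bc, w ∈ Bad ∧ sa w = a ∧ sb w = b ∧ rr w = r := fun w hw => by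
      rw [hBc, Finset.mem_filter, Prod.mk.injEq, Prod.mk.injEq] at hw
      exact hw
    set g : Fin N → ℕ × (ℤ × ℤ) := fun w => (jj w, gr a b (lev w) (x w)) with hg
    set P := Bc.image g with hP
    -- the potential
    have hpot := hPOT (Fin N × Bool) (fun z => μ z.1)
      (fun j z => gr a b (i0 + r + m0 * j) (mgpos x ρ z)) s P hs (fun z => hμ z.1)
      (by
        intro i z z' h
        have h1 := mg_iter hG1 a b (i0 + r + m0 * i) m0 _ _ h
        have e : (i0 + r + m0 * ((i + 1 : ℕ) : ℤ) : ℤ) = i0 + r + m0 * i + m0 := by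
          push_cast
          ring
        simp only [e]
        exact h1)
      (by
        intro q hq B
        rw [hP, Finset.mem_image] at hq
        obtain ⟨w, hw, rfl⟩ := hq
        obtain ⟨hwB, hwa, hwb, hwr⟩ := hBcm w hw
        have hwB' := (Finset.mem_filter.1 hwB).2
        have elev : (i0 + r + m0 * ((jj w + 1 : ℕ) : ℤ) : ℤ) = lev w := by
          rw [hdec w, hwr]
          push_cast
          ring
        have elev2 : (i0 + r + m0 * ((jj w : ℕ) : ℤ) : ℤ) = lev w - m0 := by
          rw [hdec w, hwr]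
          push_cast
          ring
        simp only [hg]
        simp only [elev, elev2]
        -- the point p
        obtain ⟨p, hp⟩ : ∃ p : ℂ, ∀ z : Fin N × Bool, gr a b (lev w - m0) (mgpos x ρ z) = B →
            dist (mgpos x ρ z) p ≤ 2 * (3 : ℝ) ^ (lev w - m0) := by
          by_cases hex : ∃ z0 : Fin N × Bool, gr a b (lev w - m0) (mgpos x ρ z0) = B
          · obtain ⟨z0, hz0⟩ := hex
            exact ⟨mgpos x ρ z0, fun z hz => hG3 a b _ _ _ (hz.trans hz0.symm)⟩
          · push Not at hex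
            exact ⟨0, fun z hz => absurd hz (hex z)⟩
        have hlt := hwB' p
        refine hlt.le.trans ?_
        choose bb hbb using fun d => mgpos_far x ρ hρ d p
        have hinj : Function.Injective (fun d : Fin N => (d, bb d)) := fun d d' h =>
          (Prod.mk.inj h).1
        calc ∑ d with (fd x ρ (x w) d ≤ A * ρ w ∧ ρ w < A * fd x ρ p d), μ d
            = ∑ z ∈ (Finset.univ.filter (fun d => fd x ρ (x w) d ≤ A * ρ w ∧
                ρ w < A * fd x ρ p d)).image (fun d : Fin N => (d, bb d)), μ z.1 := by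
              rw [Finset.sum_image (fun d _ d' _ h => hinj h)]
          _ ≤ ∑ z with (gr a b (lev w) (mgpos x ρ z) = gr a b (lev w) (x w) ∧
                gr a b (lev w - m0) (mgpos x ρ z) ≠ B), μ z.1 := by
              refine Finset.sum_le_sum_of_subset_of_nonneg ?_ (fun z _ _ => hμ z.1)
              intro z hz
              rw [Finset.mem_image] at hz
              obtain ⟨d, hd, rfl⟩ := hz
              rw [Finset.mem_filter] at hd
              obtain ⟨-, hd1, hd2⟩ := hd
              rw [Finset.mem_filter]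
              refine ⟨Finset.mem_univ _, ?_, ?_⟩
              · rw [← hwa, ← hwb]
                refine hsab w _ ?_
                have h1 := dist_triangle (mgpos x ρ (d, bb d)) (x d) (x w)
                rw [mgpos_dist x ρ hρ (d, bb d)] at h1
                unfold fd at hd1
                have := hρ d
                simp only at h1
                linarith
              · intro hB
                have h1 := hp (d, bb d) hB
                have h2 := hbb d
                have h3 : (3 : ℝ) ^ (lev w - (m0 : ℤ)) = (3 : ℝ) ^ (lev w) / (3 : ℝ) ^ m0 := by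
                  rw [zpow_sub₀ (by norm_num), zpow_natCast]
                have h4 : (3 : ℝ) ^ (lev w) / (3 : ℝ) ^ m0 ≤ 12 * (A * ρ w) / (72 * A ^ 2) := by
                  have := hρ w
                  exact div_le_div₀ (by positivity) (hlev2 w) (by positivity) h3m0
                have h5 : 12 * (A * ρ w) / (72 * A ^ 2) = ρ w / (6 * A) := by
                  field_simp
                  ring
                have h6 : fd x ρ p d ≤ 3 * (2 * (ρ w / (6 * A))) := by
                  rw [h3] at h1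
                  rw [h5] at h4
                  linarith
                have h7 : A * fd x ρ p d ≤ ρ w := by
                  calc A * fd x ρ p d ≤ A * (3 * (2 * (ρ w / (6 * A)))) :=
                        mul_le_mul_of_nonneg_left h6 hA0.le
                    _ = ρ w * (A / A) := by ring
                    _ = ρ w := by rw [div_self hA0.ne', mul_one]
                linarith)
    -- multiplicities
    have hmult : ∀ q ∈ P, ((Bc.filter (fun w => g w = q)).card : ℝ) ≤ 729 * A ^ 2 := by
      intro q hq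
      rw [hP, Finset.mem_image] at hq
      obtain ⟨w0, hw0, rfl⟩ := hq
      obtain ⟨-, hw0a, hw0b, hw0r⟩ := hBcm w0 hw0
      set Tq := Bc.filter (fun w => g w = g w0) with hTq
      have hTm : ∀ w ∈ Tq, lev w = lev w0 ∧ gr a b (lev w0) (x w) = gr a b (lev w0) (x w0) := by
        intro w hw
        rw [hTq, Finset.mem_filter] at hw
        obtain ⟨-, -, -, hwr⟩ := hBcm w hw.1
        have h1 := hw.2
        simp only [hg, Prod.mk.injEq] at h1
        have h2 : lev w = lev w0 := by
          rw [hdec w, hdec w0, hwr, hw0r, h1.1]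
        refine ⟨h2, ?_⟩
        have h3 : gr a b (lev w) (x w) = gr a b (lev w0) (x w0) := h1.2
        rw [← h3, h2]
      have h3p : (0 : ℝ) < (3 : ℝ) ^ (lev w0) := by positivity
      have har := hAREA N x ρ Tq (x w0) (9 / 4 * (3 : ℝ) ^ (lev w0)) hρ hdis (by
        intro w hw
        obtain ⟨e1, e2⟩ := hTm w hw
        have h1 := hG3 a b (lev w0) _ _ e2
        have h2 := hlev1 w
        rw [e1] at h2
        unfold fd
        have h4 := hρ w
        have h5 : ρ w ≤ A * ρ w := by nlinarith
        linarith) (by positivity)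
      have hlow : ∀ w ∈ Tq, ((3 : ℝ) ^ (lev w0) / (12 * A)) ^ 2 ≤ ρ w ^ 2 := by
        intro w hw
        obtain ⟨e1, e2⟩ := hTm w hw
        have h2 := hlev2 w
        rw [e1] at h2
        refine pow_le_pow_left₀ (by positivity) ?_ 2
        rw [div_le_iff₀ (by positivity)]
        linarith
      have h1 := Finset.card_nsmul_le_sum Tq (fun w => ρ w ^ 2) _ hlow
      rw [nsmul_eq_mul] at h1
      have h2 : (Tq.card : ℝ) * ((3 : ℝ) ^ (lev w0) / (12 * A)) ^ 2 ≤
          (9 / 4 * (3 : ℝ) ^ (lev w0)) ^ 2 := h1.trans har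
      have h4 : ∀ y : ℝ, (Tq.card : ℝ) * (y / (12 * A)) ^ 2 =
          ((Tq.card : ℝ) / (144 * A ^ 2)) * y ^ 2 := fun y => by ring
      rw [h4, mul_pow] at h2
      have h5 : (Tq.card : ℝ) / (144 * A ^ 2) ≤ (9 / 4) ^ 2 :=
        le_of_mul_le_mul_right h2 (by positivity)
      rw [div_le_iff₀ (by positivity)] at h5
      linarith
    have hcard : (Bc.card : ℝ) ≤ P.card * (729 * A ^ 2) := by
      have h1 : Bc.card = ∑ q ∈ P, (Bc.filter (fun w => g w = q)).card :=
        Finset.card_eq_sum_card_image g Bc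
      rw [h1, Nat.cast_sum, ← nsmul_eq_mul, ← Finset.sum_const]
      exact Finset.sum_le_sum hmult
    have hsumZ : ∑ z : Fin N × Bool, μ z.1 = 2 * ∑ d, μ d := by
      rw [Fintype.sum_prod_type]
      simp only [Finset.sum_const, Finset.card_univ, Fintype.card_bool, nsmul_eq_mul]
      rw [Finset.mul_sum]
      norm_num
    have hpot' : s * (P.card : ℝ) ≤ 2 * ∑ z : Fin N × Bool, μ z.1 := hpot
    rw [hsumZ] at hpot'
    calc s * (Bc.card : ℝ) ≤ s * (P.card * (729 * A ^ 2)) := mul_le_mul_of_nonneg_left hcard hs.le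
      _ = (729 * A ^ 2) * (s * P.card) := by ring
      _ ≤ (729 * A ^ 2) * (2 * (2 * ∑ d, μ d)) :=
          mul_le_mul_of_nonneg_left hpot' (by positivity)
      _ = _ := by ring
  -- all classes
  set F : Finset (ℕ × ℕ × ℕ) := Finset.range 2 ×ˢ (Finset.range 2 ×ˢ Finset.range m0) with hF
  have hmaps : ∀ w ∈ Bad, (sa w, sb w, rr w) ∈ F := fun w _ => by
    rw [hF, Finset.mem_product, Finset.mem_product, Finset.mem_range, Finset.mem_range,
      Finset.mem_range]
    exact ⟨by have := hsa w; simp only; omega, by have := hsb w; simp only; omega,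
      Nat.mod_lt _ hm0pos⟩
  have hcard : Bad.card = ∑ c ∈ F, (Bad.filter (fun w => (sa w, sb w, rr w) = c)).card :=
    Finset.card_eq_sum_card_fiberwise hmaps
  have hFc : F.card = 4 * m0 := by
    rw [hF, Finset.card_product, Finset.card_product, Finset.card_range, Finset.card_range]
    ring
  have hμ0 : 0 ≤ ∑ d, μ d := Finset.sum_nonneg fun d _ => hμ d
  calc s * (Bad.card : ℝ) = ∑ c ∈ F, s * ((Bad.filter (fun w => (sa w, sb w, rr w) = c)).card : ℝ) := by
        rw [hcard, Nat.cast_sum, Finset.mul_sum]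
    _ ≤ ∑ c ∈ F, 729 * A ^ 2 * (4 * ∑ d, μ d) := Finset.sum_le_sum fun c _ => hclass c
    _ = (4 * m0) * (729 * A ^ 2 * (4 * ∑ d, μ d)) := by
        rw [Finset.sum_const, nsmul_eq_mul, hFc]
        push_cast
        ring
    _ ≤ (4 * (73 * A ^ 2)) * (729 * A ^ 2 * (4 * ∑ d, μ d)) := by
        refine mul_le_mul_of_nonneg_right (by linarith) (by positivity)
    _ = 4 * 73 * 729 * 4 * A ^ 4 * ∑ d, μ d := by ring

end

end SPR
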